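import Pool.Agent.W146.TPFinal

/-!
Partitioning highly strong tournaments into `k`-strong parts with prescribed vertices.
-/

namespace Pool.Agent.Results.MP_a8780a_co.PrescribedPartition

universe u

/-- `T` is the arc relation of a tournament: there are no loops, and every pair of distinct
vertices is joined by exactly one arc. -/
def IsTournament {V : Type u} (T : V → V → Prop) : Prop :=
  (∀ v, ¬ T v v) ∧ ∀ u v, u ≠ v → (T u v ∧ ¬ T v u) ∨ (T v u ∧ ¬ T u v)

/-- The digraph induced by `T` on `U` is strongly connected: from every vertex of `U` one can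
walk along arcs inside `U` to every vertex of `U`. -/
def StronglyConnectedOn {V : Type u} (T : V → V → Prop) (U : Set V) : Prop :=
  ∀ a ∈ U, ∀ b ∈ U, Relation.ReflTransGen (fun u v => u ∈ U ∧ v ∈ U ∧ T u v) a b

/-- The digraph induced by `T` on `U` is `k`-strong: `U` has at least `k + 1` vertices, and after
deleting any set `X` of at most `k - 1` vertices it is strongly connected. -/
def KStrong {V : Type u} (T : V → V → Prop) (k : ℕ) (U : Set V) : Prop :=
  k + 1 ≤ U.ncard ∧ ∀ X ⊆ U, X.ncard ≤ k - 1 → StronglyConnectedOn T (U \ X)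

theorem kstrong_iff {V : Type u} [Fintype V] (T : V → V → Prop) (k : ℕ) (hk : 1 ≤ k)
    (U : Finset V) : W146.TP.KStrong T k U ↔ KStrong T k (U : Set V) := by
  classical
  constructor
  · rintro ⟨h1, h2⟩
    refine ⟨by rw [Set.ncard_coe_finset]; exact h1, ?_⟩
    intro X hX hXk a ha b hb
    have h3 := h2 X.toFinset (by
      intro w hw
      simp only [Set.mem_toFinset] at hw
      exact hX hw) (by
      rw [← Set.ncard_eq_toFinset_card']
      omega) a (by
      simp only [Finset.mem_sdiff, Set.mem_toFinset]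
      simpa using ha) b (by
      simp only [Finset.mem_sdiff, Set.mem_toFinset]
      simpa using hb)
    refine Relation.ReflTransGen.mono ?_ _ _ h3
    rintro p q ⟨hp, hq, hpq⟩
    simp only [Finset.mem_sdiff, Set.mem_toFinset] at hp hq
    exact ⟨by simpa using hp, by simpa using hq, hpq⟩
  · rintro ⟨h1, h2⟩
    refine ⟨by rw [Set.ncard_coe_finset] at h1; exact h1, ?_⟩
    intro X hX hXk a ha b hb
    have h3 := h2 (X : Set V) (by exact_mod_cast hX) (by
      rw [Set.ncard_coe_finset]
      omega) a (by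
      simp only [Finset.mem_sdiff] at ha
      simpa using ha) b (by
      simp only [Finset.mem_sdiff] at hb
      simpa using hb)
    refine Relation.ReflTransGen.mono ?_ _ _ h3
    rintro p q ⟨hp, hq, hpq⟩
    refine ⟨?_, ?_, hpq⟩
    · simp only [Finset.mem_sdiff]
      simpa using hp
    · simp only [Finset.mem_sdiff]
      simpa using hq

/-- There is a natural number `C` such that for all positive integers `k`, `t`, every
`C k^7 t^4`-strong tournament and all distinct vertices `x_1, …, x_t` of it, the vertex set can be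
partitioned into `P_1, …, P_t` with `x_i ∈ P_i` and `P_i` inducing a `k`-strong tournament. -/
theorem result : ∃ C : ℕ, ∀ k t : ℕ, 1 ≤ k → 1 ≤ t →
    ∀ (V : Type u) [Finite V] (T : V → V → Prop), IsTournament T →
      KStrong T (C * k ^ 7 * t ^ 4) Set.univ →
        ∀ x : Fin t → V, Function.Injective x →
          ∃ P : Fin t → Set V, (∀ i j, i ≠ j → Disjoint (P i) (P j)) ∧
            (⋃ i, P i) = Set.univ ∧ ∀ i, x i ∈ P i ∧ KStrong T k (P i) := by
  refine ⟨8000000000, ?_⟩
  intro k t hk ht V _ T hT hK x hx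
  have : Fintype V := Fintype.ofFinite V
  have hk0 : 0 < k := hk
  have ht0 : 0 < t := ht
  have hT' : W146.TP.IsTour T := by
    refine ⟨hT.1, fun u v huv => ?_⟩
    rcases hT.2 u v huv with h | h
    · exact ⟨fun _ => h.2, fun _ => h.1⟩
    · exact ⟨fun h' => absurd h' h.2, fun h' => absurd h.1 h'⟩
  have hKpos : 1 ≤ 8000000000 * k ^ 7 * t ^ 4 := by
    have : 0 < 8000000000 * k ^ 7 * t ^ 4 := by positivity
    exact this
  have hK' : W146.TP.KStrong T (8000000000 * k ^ 7 * t ^ 4) (Finset.univ : Finset V) := by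
    rw [kstrong_iff T _ hKpos]
    simpa using hK
  have hbound : 4000000000 * (k ^ 3 * t ^ 2 * (Nat.log 2 (k * t) + 1) ^ 3)
      ≤ 8000000000 * k ^ 7 * t ^ 4 := by
    have h1 := W146.TP.cube_le (Nat.log 2 (k * t))
    have h2 : 2 ^ Nat.log 2 (k * t) ≤ k * t := Nat.pow_log_le_self 2 (by positivity)
    have h3 : 4 ^ Nat.log 2 (k * t) ≤ (k * t) ^ 2 := by
      have : (4 : ℕ) ^ Nat.log 2 (k * t) = (2 ^ Nat.log 2 (k * t)) ^ 2 := by
        rw [← pow_mul, mul_comm (Nat.log 2 (k * t)) 2, pow_mul]; norm_num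
      rw [this]
      exact Nat.pow_le_pow_left h2 2
    have h4 : (Nat.log 2 (k * t) + 1) ^ 3 ≤ 2 * (k * t) ^ 2 := by omega
    calc 4000000000 * (k ^ 3 * t ^ 2 * (Nat.log 2 (k * t) + 1) ^ 3)
        ≤ 4000000000 * (k ^ 3 * t ^ 2 * (2 * (k * t) ^ 2)) :=
          Nat.mul_le_mul_left _ (Nat.mul_le_mul_left _ h4)
      _ = 8000000000 * (k ^ 5 * t ^ 4) * 1 := by ring
      _ ≤ 8000000000 * (k ^ 5 * t ^ 4) * k ^ 2 :=
          Nat.mul_le_mul_left _ (Nat.one_le_iff_ne_zero.2 (by positivity))
      _ = 8000000000 * k ^ 7 * t ^ 4 := by ring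
  obtain ⟨f, hf1, hf2⟩ := W146.TP.partition_strong hT' k t _ hk ht hbound hK' x hx
  refine ⟨fun i => {v | f v = i}, ?_, ?_, ?_⟩
  · intro i j hij
    rw [Set.disjoint_left]
    intro v hv hv'
    exact hij (hv.symm.trans hv')
  · ext v
    simp
  · intro i
    refine ⟨hf1 i, ?_⟩
    have h := (kstrong_iff T k hk _).1 (hf2 i)
    simpa using h

end Pool.Agent.Results.MP_a8780a_co.PrescribedPartition
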